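import Pool.Agent.U554.TD.Gen

/-!
# The Tate conjecture for function fields over finite fields, dimension by dimension, and cubics

Let `k` be a finite field, `ℓ` a prime different from the characteristic, `F` the geometric Frobenius.

* `𝓡` is the category of vector spaces over `ℚ_ℓ` and `one = ℚ_ℓ`.
* `O b m X`, for the separated schemes `X` of finite type over `k`, is the regulator
  `c : CH_b(X, m) ⊗ ℚ_ℓ → H_{m + 2 b}(X̄, ℚ_ℓ(b))_1` (Borel-Moore homology, the generalised eigenspace of `F` of
  the eigenvalue `1`, an exact functor). If `X` is smooth of pure dimension `n`, this is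
  `CH^i(X, m) ⊗ ℚ_ℓ → H^{2 i - m}(X̄, ℚ_ℓ(i))_1`, `i = n - b`.
* `push`: the push-forwards for closed immersions.
* `GenericVanishing O push A b`, for a domain `A` of finite type over `k` and of dimension `n`, `b = n - j < n`:
  each class of `H_{2 b}(X̄, ℚ_ℓ(b))_1`, `X = Spec A`, vanishes on a non-empty open subscheme of `X`. For all
  open subschemes of `X` this means that `H^{2 j}(F_0 X̄, ℚ_ℓ(j))_1 = 0` for the cohomology of the generic point;
  as `CH^j(K, 0) = 0` for fields `K` and `j > 0` it is Q1 for `i = 2 j > 0` in the strong form (with the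
  generalised eigenspace in the place of the invariants).

Let `T` be a trilinear form in three blocks `x`, `y`, `z` of `a₁`, `a₂`, `a₃` variables.

* `bilS T` is the closed subscheme `Z_T` of `𝔸^(a₂ + a₃)` given by the `a₁` bilinear equations
  `∂T/∂x_i (y, z) = 0`;
* `hypS T` is the smooth affine cubic hypersurface `Y_T : T(x, y, z) = 1` of dimension
  `n = a₁ + a₂ + a₃ - 1`; `O (n - j) 1 (hypS T)` is the regulator
  `CH^j(Y_T, 1) ⊗ ℚ_ℓ → H^{2 j - 1}(Ȳ_T, ℚ_ℓ(j))_1`.

The known facts which are used are in `IsClassTheory`, `QuarticSurfaces` and `HasSupports`.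
-/

set_option autoImplicit false

open CategoryTheory AlgebraicGeometry MvPolynomial Pool.Agent.Y116.UV Pool.Agent.U554.TW Pool.Agent.U554.TD
  Pool.Agent.U483.GU

universe w v u

namespace Pool.Agent.Results.MP_677d84_ag.CubicsByDimension

/-- All function fields of transcendence degree at most `d`: generic vanishing for all domains of finite type
and of dimension at most `d`, in all weights `b` less than the dimension. -/
def Generic {𝓡 : Type u} [Category.{v} 𝓡] [Abelian 𝓡] {one : 𝓡} {k : Type} [Field k]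
    (O : ℤ → ℤ → Sch k → CReg.{w} one) (push : Push O) (d : ℕ) : Prop :=
  ∀ (A : Type) [CommRing A] [IsDomain A] [Algebra k A] [Algebra.FiniteType k A] (n : ℕ) (b : ℤ),
    ringKrullDim A = n → n ≤ d → b < n → GenericVanishing O push A b

/-- **The Tate conjecture for function fields: small blocks, and dimension by dimension.**

(A) If two of the three blocks of `T` have at most `4` variables (the third one is arbitrary), or if one block
has at most `3` variables, then all classes on `Z_T` are algebraic, and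
`CH^j(Y_T, 1) ⊗ ℚ_ℓ → H^{2 j - 1}(Ȳ_T, ℚ_ℓ(j))_1` is onto for all `j ≥ 1`.

(B) Let `d ≥ 1` and let `s` be any number. The following are equivalent, and all hold for `d = 1`:

1. the strong form of Q1 for `i = 2 j > 0` for the function fields of transcendence degree at most `d`;
2. (`d = 1`, or) the strong form of the Tate conjecture for all smooth projective `V` of dimension at most `d`;
3. all classes in `H_{2 b}(X)(-b)`, `b` arbitrary, are algebraic for all separated schemes `X` of finite type
   of dimension at most `d`;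
4. the same for all `Z_T` with a block of at most `d + 2` variables, and for all closed subschemes of affine
   spaces which are given by equations with `t_1, …, t_c` terms, `∑ max(t_i - 2, 0) ≤ d`;
5. `CH^j(Y_T, 1) ⊗ ℚ_ℓ → H^{2 j - 1}(Ȳ_T, ℚ_ℓ(j))_1` is onto for all `j ≥ 1` and all `T` with a block of at
   most `d + 2` variables;
6. the same for all `T` with exactly `d + 2` variables `y` and all `j ≥ 1` with `j ≥ s`. -/
theorem result {𝓡 : Type u} [Category.{v} 𝓡] [Abelian 𝓡] (one : 𝓡) {k : Type} [Field k] [Finite k]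
    (O : ℤ → ℤ → Sch k → CReg.{w} one) (push : Push O) (hO : IsClassTheory O)
    (hs : HasSupports O push) (hq : QuarticSurfaces O) :
    (∀ (a₁ a₂ a₃ : ℕ) (T : Fin a₁ → Fin a₂ → Fin a₃ → k),
      Block 3 a₁ a₂ a₃ ∨ TwoBlocks 4 4 a₁ a₂ a₃ →
      AllOnto O (bilS T) ∧ ∀ j : ℕ, 1 ≤ j → (O (a₁ + a₂ + a₃ - 1 - j) 1 (hypS T)).Onto) ∧
    ∀ (d : ℕ), 1 ≤ d → ∀ s : ℕ, List.TFAE [
      Generic O push d,
      d = 1 ∨ ∀ V : Sch k, SmoothProjective V → topologicalKrullDim V.left ≤ d → AllOnto O V,
      ∀ X : Sch k, FT True X → topologicalKrullDim X.left ≤ d → AllOnto O X,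
      (∀ (a₁ a₂ a₃ : ℕ) (T : Fin a₁ → Fin a₂ → Fin a₃ → k), Block (d + 2) a₁ a₂ a₃ →
        AllOnto O (bilS T)) ∧
      ∀ (n : ℕ) (G : Finset (MvPolynomial (Fin n) k)), ∑ g ∈ G, (g.support.card - 2) ≤ d →
        AllOnto O (aff k (MvPolynomial (Fin n) k ⧸ Ideal.span (G : Set (MvPolynomial (Fin n) k)))),
      ∀ (a₁ a₂ a₃ : ℕ) (T : Fin a₁ → Fin a₂ → Fin a₃ → k), Block (d + 2) a₁ a₂ a₃ →
        ∀ j : ℕ, 1 ≤ j → (O (a₁ + a₂ + a₃ - 1 - j) 1 (hypS T)).Onto,
      ∀ (a₁ a₃ : ℕ) (T : Fin a₁ → Fin (d + 2) → Fin a₃ → k), ∀ j : ℕ, s ≤ j → 1 ≤ j →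
        (O (a₁ + (d + 2) + a₃ - 1 - j) 1 (hypS T)).Onto] := by
  refine ⟨fun _ _ _ T ha => small_blocks hO hq T ha, fun d hd s => ?_⟩
  have h := class_tfae hO 1 (fun V hV hdim b => hO.extreme V 1 b hV.ft hdim (by push_cast; omega))
    d hd s
  tfae_have 1 → 2 := by
    intro h1
    refine Or.inr fun V hV hdim => of_affine_dim (sided_class hO).toOne ?_ V hV.ft hdim
    exact all_of_generic hO d h1 d le_rfl
  tfae_have 2 → 3 := fun h1 => (h.out 0 1).mp (h1.imp (fun h2 => by omega) id)
  tfae_have 3 → 1 := by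
    intro h1 A _ _ _ _ n b hn hnd hb
    refine generic_of_all hs hn hb (h1 _ (ft_aff True) ?_)
    rw [Pool.Agent.Z125.UN.topDim_aff, hn]
    exact_mod_cast hnd
  tfae_have 3 → 4 := by
    intro h1
    refine ⟨(h.out 1 2).mp h1, fun n G hG => complexity (sided_class hO) d (fun A _ _ _ hA => ?_) G hG⟩
    refine h1 _ (ft_aff True) ?_
    rw [Pool.Agent.Z125.UN.topDim_aff]
    exact hA
  tfae_have 4 → 5 := fun h1 => (h.out 2 3).mp h1.1
  tfae_have 5 → 3 := fun h1 => (h.out 3 1).mp h1
  tfae_have 5 ↔ 6 := h.out 3 4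
  tfae_finish

end Pool.Agent.Results.MP_677d84_ag.CubicsByDimension
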