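import Pool.Agent.U173.FG.Main

/-!
# Invariants in the cohomology of the function fields of products over finite fields

Let `𝒱` be a class of smooth projective varieties over the field `κ` with `q = p ^ m` elements, closed under
products, with Chow groups `A` with rational coefficients and a Weil cohomology theory `H` with an
algebraically closed field `K` of coefficients of characteristic zero (framework of the starting library:
`TheoryData`, `IsChow`, `IsWeil`; for example the `ℓ`-adic cohomology of the varieties over `κ̄` with
coefficients extended to an algebraic closure of `ℚ_ℓ`). The cohomology groups `H^i(F_0 X)` of the function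
fields are given by `GenericData`, with the usual properties `IsGeneric`: restriction to the generic
point, Frobenius, pull-back along the projections from `X × Y` to `Y`. The Galois invariants in the pure part
of `H^(2 n)(F_0 X)(n)` are the restrictions `y` of classes in `H^(2 n)(X)` which the Frobenius maps to
`q ^ n y` (`IsInvariantClass`; **the restriction itself is an eigenvector, not the class on `X`**). By
Deligne's theorem on the weights, these are all invariants in `H^(2 n)(F_0 X)(n)`.

Let `X i`, `i` in a linearly ordered set, and `Z` be an `IsSeparatedFamily`:
* the cohomology of `X i` is generated by the classes of cycles and a Frobenius-stable subspace on which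
  all eigenvalues are Weil numbers with slope field `L i`, and not supersingular (`IsGoodAlgebra`);
* `Z` is **any** variety in `𝒱`, `M` a slope field of `Z`;
* each `L i` contains a totally real field `E i` over which it is normal (if it is not the last one),
  such that `L i ∩ E i L j`, for `i < j`, and `L i ∩ E i M` are totally real.

Here a slope field of an algebraic number is a subfield `L` of `ℚ̄` such that the automorphisms over `L` do
not change the absolute values of its conjugates at a fixed place above `p` (`HasSlopesIn`). Every CM
field is normal over its largest totally real subfield, so for CM fields `L i` it is enough that `L i` is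
not contained in `L i⁺ L j` for `i < j`, and not in `L i⁺ M`.

**Theorem.** Let `V` be the product of `Z` and finitely many different `X i`. Then, for all `n`, the
pull-back is a bijection from the invariants in the pure part of `H^(2 n)(F_0 Z)(n)` to those in the pure
part of `H^(2 n)(F_0 V)(n)`. In particular there are nonzero invariants for the function field of `V` if
and only if there are nonzero ones for the function field of `Z`.

For `n > 0` the group `CH^n(Spec κ̄(V), 0)` is zero, so the question for `V`, in degree `i = 2 n` with the twist
`j = n`, is whether there are no nonzero invariants: the answer is the same for `V` and for `Z`. No case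
of the conjectures of Tate, Beilinson or Grothendieck is assumed for `Z`, and no semisimplicity of the
Frobenius.

The proof. If `res a` is an invariant for `V = X × Y`, then a polynomial in the Frobenius maps `a` to a
generalised eigenvector `w` for `q ^ n` with the same restriction to the generic point (`exists_gen`). As
there are no resonances between the eigenvalues (`U173/SF`), `w` lies in the span of the exterior
products of classes of cycles on `X` with classes on `Y` (helper876, `N876/CG`), so
`w = ∑ cl (D j) × h j` with `h j` in `H^(2 n - 2 deg D j)(Y)`. At the generic point of `V` all terms with
`deg D j > 0` vanish, and `D j` is a multiple of `1` if `deg D j = 0`. So `res a` is the pull-back of an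
element `y'` of the cohomology of the function field of `Y`, and `y'` is invariant since the pull-back is
injective.
-/

set_option autoImplicit false

open Polynomial CategoryTheory AlgebraicGeometry

namespace Pool.Agent.Results.MP_677d84_ag.FunctionFieldsOfProducts

open Pool.Agent.H914 Pool.Agent.H914.VarClass Pool.Agent.H914.VarClass.Obj Pool.Agent.W492.BB
  Pool.Agent.W484.CK Pool.Agent.U173.PS Pool.Agent.U173.SF Pool.Agent.U173.FG
  Pool.Agent.U231.FR.Base

/-- **The invariants in the cohomology of the function field of a product come from the factor `Z`.** -/
theorem result {κ : Type} [Field κ] {𝒱 : VarClass κ} (A : TheoryData.{0, 0, 0} 𝒱 ℚ) [IsChow A]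
    {K : Type} [Field K] [IsAlgClosed K] [CharZero K] (H : WeilTheoryData.{0, 0, 0} A K) [IsWeil H]
    {I : Type} [LinearOrder I] (p m : ℕ) [Fact p.Prime] (ι : AlgebraicClosure ℚ →+* PadicAlgCl p)
    (E : I → IntermediateField ℚ (AlgebraicClosure ℚ))
    (M : IntermediateField ℚ (AlgebraicClosure ℚ))
    (L : I → IntermediateField ℚ (AlgebraicClosure ℚ)) (F : ∀ X : 𝒱.Obj, X ⟶ X) (X : I → 𝒱.Obj)
    (Z : 𝒱.Obj) (h : IsSeparatedFamily p m ι E M L H F X Z) (T : GenericData H)
    (hT : IsGeneric T F) (l : List I) (hl : l.Nodup) (n : ℕ) :
    InvariantsFromBase T (p ^ m) X Z l n ∧
      (HasNoInvariants T (p ^ m) (productOf X Z l) n ↔ HasNoInvariants T (p ^ m) Z n) :=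
  Pool.Agent.U173.FG.main h hT hl n

end Pool.Agent.Results.MP_677d84_ag.FunctionFieldsOfProducts
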