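import Pool.Agent.U222.FF.Main

/-!
# The Tate conjecture for the function fields of products with cyclic coverings of large prime degrees

Let `κ` be the finite field with `q = c ^ f` elements, `c` prime, and let `X ↦ H(X)` be the `ℓ`-adic
cohomology of the smooth projective geometrically irreducible varieties over `κ` (over an algebraic closure),
with its degrees, the action of the Galois group `Γ`, the Künneth formula and the classes of algebraic
cycles (`Cohomology`, `Cohomology.IsStandard`; `K = ℚ_ℓ`, embedded into `ℂ`). The structure `Generic`
contains the cohomology `G X = ⊕ H^d(F_0 X)` of the generic points, the direct limit of the cohomology of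
the nonempty open subvarieties: the Frobenius, the restriction `H(X) → G X`, the inverse images
`G Y → G (X × Y)`. The restriction is zero on `z × y` for cycles `z` of positive codimension, and the
invariants in `H^(2n)(F_0 X)(n)` come from `H^(2n)(X)(n)`, since the quotients `H^(2n)(U)/H^(2n)(X)` have
weights larger than `2n` (Deligne). As `CH^n(Spec F, 0) = 0` for `n > 0`, Question Q1 with `i = 2n`, `j = n > 0`
for the function field of `X` is `Generic.Holds`: **the whole group `H^(2n)(F_0 X)(n)` has no nonzero
invariants.**

Let `X_i` be smooth projective varieties of dimensions `n_i`, models of cyclic coverings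

  `w ^ N_i = l_1 (x) ^ a_1 ⋯ l_s (x) ^ a_s`

of the projective space of dimension `n_i`, branched along hyperplanes in general position
(`Cohomology.IsModel`: the cohomology is the direct sum of the lines of classes `e k` of algebraic cycles, with
`1` in codimension zero, and of the part `W` without invariants, with the trace formula and purity), and let
`IsAdmissibleFamily` be true: for example the degrees `N_i` are different prime numbers with `c ≡ 1` modulo
`N_i`, `∑ a_k = N_i`, one of the exponents is `N_i - A_i` with `A_i ≥ 2`, `N_i > A_i ^ 2 b + A_i` and `n_i > λ`.

Let `Z` be **any** smooth projective variety such that the eigenvalues of the Frobenius on `H(Z)`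
* have degrees at most `2 b + 1` over `ℚ` (for instance: the Betti numbers are at most `2 b + 1`); or
* satisfy: `q ^ λ β / β̄` is integral (for instance `dim Z ≤ λ`); or
* satisfy `HasFewSlopes`.

Let `V` be the product of finitely many different `X_i`.

**Theorem.**
* **If `Z` is a curve (or a point), then Q1 with `i = 2n`, `j = n`, holds for the function field of `V × Z`
  for all `n > 0`.** For example let all `X_i` be of dimension at least two and `N_i > A_i` different prime
  numbers (`b = 0`, `λ = 1`): then this is so for **all** curves `Z`.
* **For every `Z` and every `n`, Q1 with `i = 2n`, `j = n` holds for the function field of `V × Z` if and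
  only if it holds for the function field of `Z`.**
* More precisely the inverse image is a bijection from the invariants in `H^(2n)(F_0 Z)(n)` to
  the invariants in `H^(2n)(F_0 (V × Z))(n)`.

The proof. An invariant class is the restriction of a class in `H^(2n)(X_i × V' × Z)`, which can be
replaced by a generalised eigenvector of the Frobenius with the eigenvalue `q^n` (`FF.lift_gen`; no
semisimplicity is used). A product of eigenvalues on the parts `W_i` and of an eigenvalue on `H(Z)` is
not a power of `q` up to roots of unity (theorem of Stickelberger and Thue's lemma, `U222/SL`,
`N876/FL`); hence generalised eigenvectors have no component in `W_i ⊗ H(V' × Z)` (`FF.rm_gen`), and the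
components `z × y` with a cycle `z` of positive codimension are zero at the generic point.

`MP_677d84_ag.FunctionFieldsOfProducts` (helper173) treats varieties with separated slope fields and the
pure part of the cohomology of the generic point. Here `Z` is only restricted by numbers (Betti numbers
or dimension), the statement is about all of `H^(2n)(F_0 X)(n)`, and function fields of products with all
curves are an unconditional case. The trace formula and Deligne's theorems are hypotheses in the
definitions.

helper222.
-/

set_option autoImplicit false

open Finset TensorProduct

namespace Pool.Agent.Results.MP_677d84_ag.LargePrimeCoverings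

open Pool.Agent.U222.SL Pool.Agent.U222.SM Pool.Agent.U222.FF
open Pool.Agent.U222.CR.Pub (IsAdmissibleFamily IsAdmissibleFactor complexified)

/-- **The Tate conjecture for the function fields of products with cyclic coverings of large prime
degrees.** -/
theorem result (c : ℕ) [Fact c.Prime] (κ : Type) [Field κ] [Fintype κ] [CharP κ c] (f : ℕ)
    (hf : Fintype.card κ = c ^ f) {K 𝒱 Γ : Type} {H : 𝒱 → Type} [Field K] [Algebra K ℂ] [Mul 𝒱]
    [Group Γ] [∀ X, AddCommGroup (H X)] [∀ X, Module K (H X)] [∀ X, FiniteDimensional K (H X)]
    (T : Cohomology K H Γ) (χ : Γ →* Kˣ) (hT : T.IsStandard χ)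
    -- the Frobenius
    (σ : Γ) (hσ : ((χ σ : Kˣ) : K) = (Fintype.card κ : K))
    -- the cohomology of the generic points
    (D : Generic T) (hD : D.IsGeneric (Fintype.card κ) σ)
    -- the varieties `X_i`, models of the coverings `C_i`
    {ι : Type} [Fintype ι] [DecidableEq ι] (C : ι → Covering κ) (X : ι → 𝒱)
    {I : ι → Type} [∀ i, Fintype (I i)] [∀ i, DecidableEq (I i)] (codim : ∀ i, I i → ℕ)
    (e : ∀ i, I i → H (X i)) (l : ∀ i, I i → H (X i) →ₗ[K] K)
    (hX : ∀ i, T.IsModel (C i) σ (X i) (codim i) (e i) (l i))
    (h1 : ∀ i k, codim i k = 0 → e i k = D.one (X i)) (lam b N : ℕ)
    (hC : IsAdmissibleFamily C c f N lam b)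
    -- the variety `Z`
    (Z : 𝒱) (hZ : IsAdmissibleFactor c (Fintype.card κ) N lam b (complexified (T.act Z σ))) :
    ∀ L : List ι, L.Nodup → D.Conclusions (Fintype.card κ) X Z L :=
  fun L hL => conclusions hD (fun X Y n y hy => pull_inv hD.pull X Y n y hy)
    (step c κ f hf hT σ hσ hD C X codim e l hX h1 lam b N hC Z hZ) L hL

end Pool.Agent.Results.MP_677d84_ag.LargePrimeCoverings
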