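import Pool.Agent.U407.NP25

/-!
The Tate conjecture for the function fields of the products of a surface `y ^ p - y = f(x, t)` with an
arbitrary variety over a finite field.
-/

set_option autoImplicit false
set_option maxHeartbeats 1000000

open Polynomial Module TensorProduct

namespace Pool.Agent.Results.MP_677d84_ag.TimesArtinSchreierSurfaces

open Pool.Agent.U407.NP (piece)

section surface

variable {κ : Type} [Field κ]

/-- The polynomial `f` in `x` (outer variable) and `t` (inner variable) has the form
`f = u x ^ a + w t ^ b + (terms with x ^ m t ^ n for which b m + a n < a b)`, `u, w ≠ 0`. -/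
structure HasLeadingExponents (a b : ℕ) (f : κ[X][X]) : Prop where
  pos_a : a ≠ 0
  pos_b : b ≠ 0
  coeff_x : (f.coeff a).coeff 0 ≠ 0
  coeff_t : (f.coeff 0).coeff b ≠ 0
  rest : ∀ m n, (f.coeff m).coeff n ≠ 0 →
    (m = a ∧ n = 0) ∨ (m = 0 ∧ n = b) ∨ b * m + a * n < a * b

/-- The number of points `v = (t, x, y)` over the field with `Q` elements of the surface
`y ^ p - y = f(x, t)`. -/
noncomputable def points (p : ℕ) (f : κ[X][X]) (Q : ℕ) : ℕ :=
  Nat.card {v : AlgebraicClosure κ × AlgebraicClosure κ × AlgebraicClosure κ //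
    v.1 ^ Q = v.1 ∧ v.2.1 ^ Q = v.2.1 ∧ v.2.2 ^ Q = v.2.2 ∧
    v.2.2 ^ p - v.2.2 =
      f.eval₂ (eval₂RingHom (algebraMap κ (AlgebraicClosure κ)) v.1) v.2.1}

/-- The known properties of Frobenius `Φ` on the second cohomology with compact supports `V` of the
affine surface `y ^ p - y = f(x, t)`: the Lefschetz trace formula holds (the other groups with
compact supports are `0` and, in degree four, one-dimensional) and `V` is pure of weight two. -/
structure IsCohomology (p : ℕ) (f : κ[X][X]) {V : Type} [AddCommGroup V] [Module ℂ V]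
    (Φ : Module.End ℂ V) : Prop where
  trace : ∀ m : ℕ, m ≠ 0 → LinearMap.trace ℂ V (Φ ^ m) =
    (points p f (Nat.card κ ^ m) : ℂ) - ((Nat.card κ : ℂ) ^ m) ^ 2
  pure : ∀ α, Φ.HasEigenvalue α → ‖α‖ = (Nat.card κ : ℝ)

end surface

variable {V H T Tg M : Type} [AddCommGroup V] [Module ℂ V] [AddCommGroup H]
  [Module ℂ H] [AddCommGroup T] [Module ℂ T] [AddCommGroup Tg] [Module ℂ Tg] [AddCommGroup M]
  [Module ℂ M]

/-- The known properties of Frobenius `F` on the sum `H` of the groups `H ^ (2 j)(X)(j)` of a smooth
projective compactification `X` of the affine surface over the field with `q` elements: `i` is the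
natural map from the cohomology with compact supports of the affine surface (it respects Frobenius,
up to the twist); the `w k` are the class `e` of `X` (codimension `0`) and classes of cycles of
codimension `d k > 0`, defined over a finite extension, and they generate `H` together with the image
of `i`. -/
structure IsCompactification (q : ℕ) (Φ : Module.End ℂ V) (F : Module.End ℂ H) (i : V →ₗ[ℂ] H)
    {m : ℕ} (w : Fin m → H) (d : Fin m → ℤ) (e : H) : Prop where
  twist : ∀ v, i (Φ v) = (q : ℂ) • F (i v)
  unit_mem : ∃ k, d k = 0 ∧ w k = e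
  codim : ∀ k, (d k = 0 ∧ w k = e) ∨ 0 < d k
  algebraic : ∃ N : ℕ, N ≠ 0 ∧ ∀ k, (F ^ N) (w k) = w k
  span : Submodule.span ℂ (Set.range w) ⊔ LinearMap.range i = ⊤

/-- The known properties of the cohomology of the generic points: `Tg` and `M` are the sums of the
`H ^ (2 n)(n)` of the generic points (over the algebraic closure of the finite field) of `Z` and
of `X × Z`, with Frobenius `Fg` and `FM`; `PZ` and `P` are the restrictions from the cohomology `T`
of `Z` and `H ⊗ T` of `X × Z`; `pull` is the inverse image for the projection `X × Z → Z`, which is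
injective; all these maps respect Frobenius. The classes with support in `D × Z`, `D ≠ X`, restrict to
zero on the generic point. -/
structure IsGeneric {m : ℕ} (w : Fin m → H) (d : Fin m → ℤ) (e : H) (F : Module.End ℂ H)
    (G : Module.End ℂ T) (Fg : Module.End ℂ Tg) (FM : Module.End ℂ M) (PZ : T →ₗ[ℂ] Tg)
    (P : H ⊗[ℂ] T →ₗ[ℂ] M) (pull : Tg →ₗ[ℂ] M) : Prop where
  frobenius : ∀ c, P (TensorProduct.map F G c) = FM (P c)
  frobenius_base : ∀ z, PZ (G z) = Fg (PZ z)
  frobenius_pull : ∀ x, pull (Fg x) = FM (pull x)
  pull_back : ∀ z, P (e ⊗ₜ[ℂ] z) = pull (PZ z)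
  injective : Function.Injective pull
  vanishing : ∀ k, 0 < d k → ∀ z, P (w k ⊗ₜ[ℂ] z) = 0

/-- The generalized invariants over the extension of degree `m`: the vectors killed by
`(g ^ m - 1) ^ k`. For `k = 1` these are the invariants of the `m`-th power of Frobenius. -/
noncomputable def invariants {A : Type} [AddCommGroup A] [Module ℂ A] (g : Module.End ℂ A)
    (m k : ℕ) : Submodule ℂ A := LinearMap.ker ((g ^ m - 1) ^ k)

/-- The slope of `β` for an embedding `τ` of the complex numbers in an algebraic closure of `ℚ_p`: the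
`p`-adic valuation of `τ β`, normalized so that `q` has slope one. -/
noncomputable def slope (p : ℕ) [Fact p.Prime] (q : ℕ) (τ : ℂ →+* PadicAlgCl p) (β : ℂ) : ℝ :=
  Real.log ‖τ β‖ / Real.log ‖(q : PadicAlgCl p)‖

/-- The number `s` is not of the form `r + i / a + j / b` with `r ∈ ℤ`, `0 < i < a`, `0 < j < b`. For
coprime `a` and `b` this means: if `a b s` is an integer then `a s` or `b s` is an integer. -/
def Avoids (a b : ℕ) (s : ℝ) : Prop :=
  ∀ (r : ℤ) (i j : ℕ), 0 < i → i < a → 0 < j → j < b → s ≠ r + i / a + j / b

/-- Each eigenvalue of `G` on the subspace `N` of absolute value one has, for some embedding `τ`, a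
slope which is not of the form `r + i / a + j / b`. -/
def SlopesAvoid (p : ℕ) [Fact p.Prime] (a b q : ℕ) (G : Module.End ℂ T) (N : Submodule ℂ T) :
    Prop :=
  ∀ (β : ℂ) (z : T), z ∈ N → z ≠ 0 → G z = β • z → ‖β‖ = 1 →
    ∃ τ : ℂ →+* PadicAlgCl p, Avoids a b (slope p q τ β)

/-- **The generic point of `X × Z`, `X` a surface `y ^ p - y = f(x, t)`, `Z` any variety.**

Let `p` be a prime, `κ` a finite field with `q` elements of characteristic `p`, let `a` and `b` divide
`p - 1`, and let `f = u x ^ a + w t ^ b + …` in `κ[x, t]`, where `u, w ≠ 0` and the other terms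
`x ^ m t ^ n` have `m / a + n / b < 1` (all of them are allowed, with any coefficients). Let `X` be
any smooth projective surface over `κ` which contains the affine surface `y ^ p - y = f(x, t)` as
the complement of a union of curves.

Let `Z` be **any** smooth projective geometrically integral variety over `κ`, `T` the sum of the
groups `gr n = H ^ (2 n)(Z)(n)` (coefficients `ℂ ≅ ℚ̄_l`), with Frobenius `G`. By Künneth, `H ⊗ T` is the
corresponding sum for `X × Z` (`H ^ 1(X) = H ^ 3(X) = 0`), with the part `piece w d i gr n` in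
degree `n`. The pure part of `H ^ (2 n)(n)` of the generic point of `X × Z` (over the algebraic
closure of `κ`) is the image under `P` of this part, and for `Z` the image of `gr n` under `PZ`.

Suppose that each eigenvalue of absolute value one of Frobenius on `H ^ (2 n - 2)(Z)(n - 1)` has, for
some embedding `τ`, a slope which is not of the form `r + i / a + j / b` with `r ∈ ℤ`, `0 < i < a`,
`0 < j < b`. Then:

(1) over every finite extension of `κ` (of degree `m`), the generalized Galois invariants (for `k = 1`:
the invariants) in the pure part of `H ^ (2 n)(n)` of the generic point of `X × Z` are exactly the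
inverse images of those of the generic point of `Z`, and have the same dimension;

(2) so there are none but `0` for `X × Z` **if and only if** there are none for `Z`. For `n > 0` this
is Q1 with `i = 2 n`, `j = n` for the pure part, since `CH ^ n(Spec K, 0) = 0`. For a point `Z`
(or if `gr n = 0`) there are none.

(3) Every eigenvalue on `H ⊗ T` has, for all `τ`, the same slope as an eigenvalue on `T` up to
integral multiples of `1 / (a b)`, and the same absolute value (no condition on slopes here), so
that the theorem can be applied again with another surface.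

For coprime `a`, `b` the condition holds for example if the slopes of `Z` are integers or have
denominators prime to `a`, or prime to `b`: for curves, ordinary varieties, K3 surfaces of finite
height prime to `a` or to `b`, and for all `Z` with Betti numbers smaller than all prime factors of
`a` (the denominator of a slope is at most its multiplicity). The Tate conjecture is not assumed for
`Z`. The slopes of `X` are computed here from the numbers of points, by Dwork's method. -/
theorem result {κ : Type} [Field κ] [Finite κ] {p : ℕ} [Fact p.Prime] [CharP κ p] {a b : ℕ}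
    {f : κ[X][X]} (hf : HasLeadingExponents a b f) (ha : a ∣ p - 1) (hb : b ∣ p - 1)
    {V : Type} [AddCommGroup V] [Module ℂ V] [FiniteDimensional ℂ V] {Φ : Module.End ℂ V}
    (h : IsCohomology p f Φ)
    {H : Type} [AddCommGroup H] [Module ℂ H] [FiniteDimensional ℂ H] {F : Module.End ℂ H}
    {i : V →ₗ[ℂ] H} {c : ℕ} {w : Fin c → H} {d : Fin c → ℤ} {e : H}
    (hX : IsCompactification (Nat.card κ) Φ F i w d e)
    {T : Type} [AddCommGroup T] [Module ℂ T] [FiniteDimensional ℂ T] {G : Module.End ℂ T}
    {gr : ℤ → Submodule ℂ T} (hgr : ∀ n, ∀ z ∈ gr n, G z ∈ gr n)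
    {Tg : Type} [AddCommGroup Tg] [Module ℂ Tg] {Fg : Module.End ℂ Tg}
    {M : Type} [AddCommGroup M] [Module ℂ M] {FM : Module.End ℂ M}
    {PZ : T →ₗ[ℂ] Tg} {P : H ⊗[ℂ] T →ₗ[ℂ] M} {pull : Tg →ₗ[ℂ] M}
    (hP : IsGeneric w d e F G Fg FM PZ P pull) :
    (∀ n, SlopesAvoid p a b (Nat.card κ) G (gr (n - 1)) → ∀ m k : ℕ, m ≠ 0 →
      Submodule.map P (piece w d i gr n) ⊓ invariants FM m k =
        Submodule.map pull (Submodule.map PZ (gr n) ⊓ invariants Fg m k) ∧
      finrank ℂ ↥(Submodule.map P (piece w d i gr n) ⊓ invariants FM m k) =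
        finrank ℂ ↥(Submodule.map PZ (gr n) ⊓ invariants Fg m k) ∧
      (Submodule.map P (piece w d i gr n) ⊓ invariants FM m k = ⊥ ↔
        Submodule.map PZ (gr n) ⊓ invariants Fg m k = ⊥) ∧
      (gr n = ⊥ → Submodule.map P (piece w d i gr n) ⊓ invariants FM m k = ⊥)) ∧
    (∀ γ, Module.End.HasEigenvalue (TensorProduct.map F G) γ →
      ∃ β, G.HasEigenvalue β ∧ ‖γ‖ = ‖β‖ ∧
        ∀ τ : ℂ →+* PadicAlgCl p, ∃ k : ℤ,
          slope p (Nat.card κ) τ γ = slope p (Nat.card κ) τ β + k / (a * b)) := by
  classical
  have : Fintype κ := Fintype.ofFinite κ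
  have hcard : Nat.card κ = Fintype.card κ := Nat.card_eq_fintype_card
  have hD : Pool.Agent.U407.NP.Dg a b f :=
    ⟨hf.pos_a, hf.pos_b, hf.coeff_x, hf.coeff_t, hf.rest⟩
  have htr : ∀ m, m ≠ 0 → LinearMap.trace ℂ V (Φ ^ m) =
      (Pool.Agent.N867.AS.Trans.Npts p f (Fintype.card κ ^ m) : ℂ) -
        ((Fintype.card κ : ℂ) ^ m) ^ 2 := by
    intro m hm
    rw [← hcard]
    exact h.trace m hm
  have hpure : ∀ α, Φ.HasEigenvalue α → ‖α‖ = (Fintype.card κ : ℝ) := by
    rw [← hcard]
    exact h.pure
  have hq : (Fintype.card κ : ℂ) ≠ 0 := Nat.cast_ne_zero.2 Fintype.card_ne_zero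
  have hi : ∀ v, i ((((Fintype.card κ : ℂ)⁻¹) • Φ) v) = F (i v) := by
    intro v
    have h1 := hX.twist v
    rw [hcard] at h1
    rw [LinearMap.smul_apply, map_smul, h1, smul_smul, inv_mul_cancel₀ hq, one_smul]
  obtain ⟨N, hN, hw⟩ := hX.algebraic
  refine ⟨fun n hn m k hm => ?_, fun γ hγ => ?_⟩
  · have hno := Pool.Agent.U407.NP.nc_no (G := G.restrict (hgr (n - 1))) hD ha hb htr hpure
      (fun β hβ hβ1 => by
        obtain ⟨z, hz⟩ := hβ.exists_hasEigenvector
        have h1 : G (z : T) = β • (z : T) := by
          have h2 := congrArg Subtype.val (Module.End.mem_eigenspace_iff.1 hz.1)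
          simpa using h2
        obtain ⟨τ, hτ⟩ := hn β z z.2 (fun h => hz.2 (Subtype.ext h)) h1 hβ1
        rw [hcard] at hτ
        exact ⟨τ, hτ⟩) m hm
    have hmain : Submodule.map P (piece w d i gr n) ⊓ invariants FM m k =
        Submodule.map pull (Submodule.map PZ (gr n) ⊓ invariants Fg m k) :=
      Pool.Agent.U407.NP.generic_main hi (fun k => by
          rcases hX.codim k with h1 | h1
          · exact Or.inl h1
          · exact Or.inr (hP.vanishing k h1)) hX.unit_mem hP.frobenius hP.frobenius_base
        hP.frobenius_pull hP.pull_back hP.injective (hgr (n - 1)) (hgr n) hno k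
    refine ⟨hmain, ?_, ?_, fun h0 => ?_⟩
    · rw [hmain]
      exact (LinearEquiv.finrank_eq (Submodule.equivMapOfInjective pull hP.injective _)).symm
    · rw [hmain]
      constructor
      · intro h1
        rw [eq_bot_iff]
        intro x hx
        have h2 : pull x ∈ (⊥ : Submodule ℂ M) := h1 ▸ ⟨x, hx, rfl⟩
        rw [Submodule.mem_bot] at h2 ⊢
        exact hP.injective (h2.trans (map_zero _).symm)
      · intro h1
        rw [h1, Submodule.map_bot]
    · rw [hmain, h0, Submodule.map_bot, bot_inf_eq, Submodule.map_bot]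
  · rw [hcard]
    exact Pool.Agent.U407.NP.nc_slopes hD ha hb htr hpure hi hN hw hX.span hγ

end Pool.Agent.Results.MP_677d84_ag.TimesArtinSchreierSurfaces
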